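import Mathlib
import Pool.Agent.Run7.h601.WhitData

set_option autoImplicit false

/-!
# The dual of the partition lattice on four points is representable by partitions of a set with
at most 660 elements

The representation is by left cosets of fifteen subgroups of `PSL(2, 11)`: four projective points
and two icosahedral subgroups give the six lines of a complete quadrangle.
-/

namespace Pool.Agent.Results.MP_437e5a_co.DualPartitionLattice

open Pool.Agent.Run7.h601.Whit

/-- The lattice `L` is representable by partitions of `A`: there is an injective map into the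
lattice of all equivalence relations (partitions, ordered by refinement) of `A` which preserves
binary meets and joins. -/
def Representable (L : Type) [Lattice L] (A : Type) : Prop :=
  ∃ f : L → Setoid A, Function.Injective f ∧
    (∀ x y, f (x ⊓ y) = f x ⊓ f y) ∧ (∀ x y, f (x ⊔ y) = f x ⊔ f y)

/-- The Whitman number of `L`: the least cardinality of a set by whose partitions `L` is
representable (with the convention `sInf ∅ = 0`). -/
noncomputable def whitmanNumber (L : Type) [Lattice L] : ℕ :=
  sInf {n : ℕ | Representable L (Fin n)}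

/-- The order dual of the lattice of all partitions of a four-element set. -/
abbrev DualPi4 : Type := (Setoid (Fin 4))ᵒᵈ

/-! ### cosets -/

theorem leftRel_inf {G : Type} [Group G] (H K : Subgroup G) :
    QuotientGroup.leftRel (H ⊓ K) = QuotientGroup.leftRel H ⊓ QuotientGroup.leftRel K := by
  ext x y
  rw [Setoid.inf_def]
  simp [QuotientGroup.leftRel_apply, Subgroup.mem_inf]

theorem leftRel_mono {G : Type} [Group G] {H K : Subgroup G} (h : H ≤ K) :
    QuotientGroup.leftRel H ≤ QuotientGroup.leftRel K := by
  intro x y hxy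
  rw [QuotientGroup.leftRel_apply] at hxy ⊢
  exact h hxy

theorem leftRel_sup {G : Type} [Group G] (H K : Subgroup G) :
    QuotientGroup.leftRel (H ⊔ K) = QuotientGroup.leftRel H ⊔ QuotientGroup.leftRel K := by
  apply le_antisymm
  · have key : ∀ z ∈ H ⊔ K, ∀ x : G,
        (QuotientGroup.leftRel H ⊔ QuotientGroup.leftRel K) x (x * z) := by
      intro z hz
      rw [Subgroup.sup_eq_closure] at hz
      induction hz using Subgroup.closure_induction with
      | mem z hz =>
        intro x
        rcases hz with hz | hz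
        · have h1 : QuotientGroup.leftRel H ≤
              QuotientGroup.leftRel H ⊔ QuotientGroup.leftRel K := le_sup_left
          apply h1
          rw [QuotientGroup.leftRel_apply]
          simpa using hz
        · have h1 : QuotientGroup.leftRel K ≤
              QuotientGroup.leftRel H ⊔ QuotientGroup.leftRel K := le_sup_right
          apply h1
          rw [QuotientGroup.leftRel_apply]
          simpa using hz
      | one => intro x; rw [mul_one]
      | mul a b _ _ iha ihb =>
        intro x
        rw [← mul_assoc]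
        exact Setoid.trans' _ (iha x) (ihb (x * a))
      | inv a _ iha =>
        intro x
        have := iha (x * a⁻¹)
        rw [inv_mul_cancel_right] at this
        exact Setoid.symm' _ this
    intro x y hxy
    rw [QuotientGroup.leftRel_apply] at hxy
    have := key _ hxy x
    rwa [mul_inv_cancel_left] at this
  · exact sup_le (leftRel_mono le_sup_left) (leftRel_mono le_sup_right)

theorem leftRel_injective {G : Type} [Group G] :
    Function.Injective (QuotientGroup.leftRel : Subgroup G → Setoid G) := by
  intro H K h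
  ext x
  have h1 : QuotientGroup.leftRel H 1 x ↔ QuotientGroup.leftRel K 1 x := by rw [h]
  rw [QuotientGroup.leftRel_apply, QuotientGroup.leftRel_apply] at h1
  simpa using h1

/-! ### masks of equivalence relations on four points -/

/-- index of the pair `{i, j}` -/
def idx : Fin 4 → Fin 4 → Fin 6 :=
  ![![0, 0, 1, 2], ![0, 0, 3, 4], ![1, 3, 0, 5], ![2, 4, 5, 0]]

def fstP : Fin 6 → Fin 4 := ![0, 0, 0, 1, 1, 2]

def sndP : Fin 6 → Fin 4 := ![1, 2, 3, 2, 3, 3]

/-- the mask with the given six bits -/
def nb (f : Fin 6 → Bool) : ℕ :=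
  (f 0).toNat + 2 * (f 1).toNat + 4 * (f 2).toNat + 8 * (f 3).toNat + 16 * (f 4).toNat +
    32 * (f 5).toNat

theorem nb_lt (f : Fin 6 → Bool) : nb f < 64 := by
  unfold nb
  have := fun i => Bool.toNat_le (f i)
  have h0 := this 0
  have h1 := this 1
  have h2 := this 2
  have h3 := this 3
  have h4 := this 4
  have h5 := this 5
  omega

theorem nb_aux : ∀ a b c d e g : Bool, ∀ k : Fin 6,
    (a.toNat + 2 * b.toNat + 4 * c.toNat + 8 * d.toNat + 16 * e.toNat + 32 * g.toNat).testBit
      (k : ℕ) = (![a, b, c, d, e, g] : Fin 6 → Bool) k := by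
  decide +kernel

theorem nb_testBit (f : Fin 6 → Bool) (k : Fin 6) : (nb f).testBit (k : ℕ) = f k := by
  unfold nb
  rw [nb_aux]
  fin_cases k <;> rfl

/-- the mask of an equivalence relation on four points -/
noncomputable def mask (π : Setoid (Fin 4)) : ℕ :=
  nb fun k => @decide (π (fstP k) (sndP k)) (Classical.propDecidable _)

theorem mask_lt (π : Setoid (Fin 4)) : mask π < 64 := nb_lt _

theorem mask_testBit (π : Setoid (Fin 4)) (k : Fin 6) :
    (mask π).testBit (k : ℕ) = true ↔ π (fstP k) (sndP k) := by
  unfold mask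
  rw [nb_testBit]
  exact @decide_eq_true_iff _ (Classical.propDecidable _)

theorem idx_spec : ∀ i j : Fin 4, i ≠ j →
    (fstP (idx i j) = i ∧ sndP (idx i j) = j) ∨ (fstP (idx i j) = j ∧ sndP (idx i j) = i) := by
  decide

theorem idx_pair : ∀ k : Fin 6, idx (fstP k) (sndP k) = k ∧ fstP k ≠ sndP k := by decide

theorem mask_idx (π : Setoid (Fin 4)) {i j : Fin 4} (h : i ≠ j) :
    (mask π).testBit (idx i j : ℕ) = true ↔ π i j := by
  rw [mask_testBit]
  rcases idx_spec i j h with ⟨h1, h2⟩ | ⟨h1, h2⟩
  · rw [h1, h2]
  · rw [h1, h2]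
    exact ⟨fun h => Setoid.symm' _ h, fun h => Setoid.symm' _ h⟩

theorem mask_injective : Function.Injective mask := by
  intro π ρ h
  ext i j
  by_cases hij : i = j
  · subst hij
    exact ⟨fun _ => Setoid.refl' _ i, fun _ => Setoid.refl' _ i⟩
  · rw [← mask_idx π hij, ← mask_idx ρ hij, h]

theorem mask_valid (π : Setoid (Fin 4)) : valid (mask π) = true := by
  have t : ∀ i j k : Fin 4, ∀ a b c : Fin 6, i ≠ j → j ≠ k → i ≠ k → idx i j = a → idx i k = b →
      idx j k = c → tri (mask π) a b c = true := by
    intro i j k a b c hij hjk hik ha hb hc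
    have ea := mask_idx π hij
    have eb := mask_idx π hik
    have ec := mask_idx π hjk
    rw [ha] at ea
    rw [hb] at eb
    rw [hc] at ec
    have t1 : π i j → π i k → π j k := fun h1 h2 => Setoid.trans' _ (Setoid.symm' _ h1) h2
    have t2 : π i j → π j k → π i k := fun h1 h2 => Setoid.trans' _ h1 h2
    have t3 : π i k → π j k → π i j := fun h1 h2 => Setoid.trans' _ h1 (Setoid.symm' _ h2)
    rw [← ea, ← eb, ← ec] at t1 t2 t3
    unfold tri
    revert t1 t2 t3
    generalize (mask π).testBit (a : ℕ) = x
    generalize (mask π).testBit (b : ℕ) = y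
    generalize (mask π).testBit (c : ℕ) = z
    revert x y z
    decide
  have h1 := t 0 1 2 0 1 3 (by decide) (by decide) (by decide) (by decide) (by decide) (by decide)
  have h2 := t 0 1 3 0 2 4 (by decide) (by decide) (by decide) (by decide) (by decide) (by decide)
  have h3 := t 0 2 3 1 2 5 (by decide) (by decide) (by decide) (by decide) (by decide) (by decide)
  have h4 := t 1 2 3 3 4 5 (by decide) (by decide) (by decide) (by decide) (by decide) (by decide)
  unfold valid
  rw [Bool.and_eq_true, Bool.and_eq_true, Bool.and_eq_true]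
  exact ⟨⟨⟨h1, h2⟩, h3⟩, h4⟩

theorem mask_inf (π ρ : Setoid (Fin 4)) : mask (π ⊓ ρ) = mask π &&& mask ρ := by
  apply Nat.eq_of_testBit_eq
  intro i
  rw [Nat.testBit_and]
  by_cases hi : i < 6
  · have h1 := mask_testBit (π ⊓ ρ) ⟨i, hi⟩
    have h2 := mask_testBit π ⟨i, hi⟩
    have h3 := mask_testBit ρ ⟨i, hi⟩
    have h4 : (π ⊓ ρ) (fstP ⟨i, hi⟩) (sndP ⟨i, hi⟩) ↔
        π (fstP ⟨i, hi⟩) (sndP ⟨i, hi⟩) ∧ ρ (fstP ⟨i, hi⟩) (sndP ⟨i, hi⟩) := Iff.rfl
    rw [Bool.eq_iff_iff, Bool.and_eq_true]
    exact (h1.trans h4).trans (and_congr h2.symm h3.symm)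
  · have h64 : ∀ m : ℕ, m < 64 → m.testBit i = false := by
      intro m hm
      apply Nat.testBit_lt_two_pow
      calc m < 2 ^ 6 := by norm_num; exact hm
        _ ≤ 2 ^ i := Nat.pow_le_pow_right (by norm_num) (by omega)
    rw [h64 _ (mask_lt _), h64 _ (mask_lt _)]
    rfl

/-! ### the fifteen subgroups form the dual of the partition lattice -/

theorem line_trans : ∀ i j k : Fin 4, i ≠ j → j ≠ k → i ≠ k →
    ∃ l : Fin 4, On (idx i j) l ∧ On (idx j k) l ∧ On (idx i k) l ∧ idx i j ≠ idx j k := by
  decide

/-- the equivalence relation on four points attached to a group element -/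
def rel (g : A) : Setoid (Fin 4) where
  r i j := i = j ∨ g ∈ Ln (idx i j)
  iseqv := by
    have hs : ∀ i j : Fin 4, idx i j = idx j i := by decide
    refine ⟨fun i => Or.inl rfl, ?_, ?_⟩
    · intro i j h
      rcases h with h | h
      · exact Or.inl h.symm
      · right; rw [hs j i]; exact h
    · intro i j k h1 h2
      by_cases hij : i = j
      · subst hij; exact h2
      by_cases hjk : j = k
      · subst hjk; exact h1
      by_cases hik : i = k
      · exact Or.inl hik
      have h1' := h1.resolve_left hij
      have h2' := h2.resolve_left hjk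
      obtain ⟨l, e1, e2, e3, hne⟩ := line_trans i j k hij hjk hik
      exact Or.inr (meet_le e1 e2 e3 hne h1' h2')

theorem mem_F_mask (π : Setoid (Fin 4)) (g : A) : g ∈ F (mask π) ↔ g ∈ G ∧ π ≤ rel g := by
  rw [mem_F]
  refine and_congr_right fun _ => ⟨fun h i j hij => ?_, fun h k hk => ?_⟩
  · by_cases e : i = j
    · exact Or.inl e
    · exact Or.inr (h _ ((mask_idx π e).2 hij))
  · have h1 := h ((mask_testBit π k).1 hk)
    have h2 := idx_pair k
    rcases h1 with h1 | h1
    · exact absurd h1 h2.2
    · rw [h2.1] at h1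
      exact h1

theorem F_sup (π ρ : Setoid (Fin 4)) : F (mask (π ⊔ ρ)) = F (mask π) ⊓ F (mask ρ) := by
  ext g
  rw [Subgroup.mem_inf, mem_F_mask, mem_F_mask, mem_F_mask, sup_le_iff]
  tauto

theorem F_inf' (π ρ : Setoid (Fin 4)) : F (mask (π ⊓ ρ)) = F (mask π) ⊔ F (mask ρ) := by
  rw [mask_inf]
  exact F_inf (mask_lt π) (mask_lt ρ) (mask_valid π) (mask_valid ρ)

theorem F_injective {π ρ : Setoid (Fin 4)} (h : F (mask π) = F (mask ρ)) : π = ρ := by
  have key : ∀ π ρ : Setoid (Fin 4), F (mask π) ≤ F (mask ρ) → ρ ≤ π := by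
    intro π ρ h i j hij
    by_cases e : i = j
    · subst e
      exact Setoid.refl' _ i
    by_contra hn
    rw [← mask_idx π e, Bool.not_eq_true] at hn
    refine sep (mask_lt π) (mask_valid π) hn ?_
    intro g hg
    exact (mem_F.1 (h hg)).2 _ ((mask_idx ρ e).2 hij)
  exact le_antisymm (key ρ π h.ge) (key π ρ h.le)

theorem F_le_G (m : ℕ) : F m ≤ G := fun _ hg => (mem_F.1 hg).1

theorem representable_G : Representable DualPi4 G := by
  refine ⟨fun π => QuotientGroup.leftRel ((F (mask (OrderDual.ofDual π))).subgroupOf G),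
    ?_, ?_, ?_⟩
  · intro π ρ h
    have h1 := leftRel_injective h
    rw [Subgroup.subgroupOf_inj, inf_eq_left.2 (F_le_G _), inf_eq_left.2 (F_le_G _)] at h1
    exact OrderDual.ofDual.injective (F_injective h1)
  · intro π ρ
    show QuotientGroup.leftRel ((F (mask (OrderDual.ofDual π ⊔ OrderDual.ofDual ρ))).subgroupOf G)
      = _
    rw [F_sup, ← leftRel_inf]
    rfl
  · intro π ρ
    show QuotientGroup.leftRel ((F (mask (OrderDual.ofDual π ⊓ OrderDual.ofDual ρ))).subgroupOf G)
      = _
    rw [F_inf', Subgroup.subgroupOf_sup (F_le_G _) (F_le_G _), ← leftRel_sup]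

/-! ### transfer to `Fin n` -/

theorem Representable.congr {L : Type} [Lattice L] {A B : Type} (e : A ≃ B)
    (h : Representable L A) : Representable L B := by
  obtain ⟨f, hf, h1, h2⟩ := h
  have c1 : ∀ s : Setoid A, (s.comap e.symm).comap e = s := by
    intro s
    ext x y
    simp [Setoid.comap_rel]
  have c2 : ∀ s : Setoid B, (s.comap e).comap e.symm = s := by
    intro s
    ext x y
    simp [Setoid.comap_rel]
  have mono : ∀ s t : Setoid A, s ≤ t → s.comap e.symm ≤ t.comap e.symm :=
    fun s t h x y hxy => h hxy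
  have mono' : ∀ s t : Setoid B, s ≤ t → s.comap e ≤ t.comap e :=
    fun s t h x y hxy => h hxy
  refine ⟨fun x => (f x).comap e.symm, ?_, ?_, ?_⟩
  · intro x y hxy
    apply hf
    have := congrArg (fun s : Setoid B => s.comap e) hxy
    simpa only [c1] using this
  · intro x y
    dsimp only
    rw [h1]
    rfl
  · intro x y
    dsimp only
    rw [h2]
    apply le_antisymm
    · have h3 : f x ⊔ f y ≤ ((f x).comap e.symm ⊔ (f y).comap e.symm).comap e := by
        refine sup_le ?_ ?_
        · have := mono' _ _ (le_sup_left :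
            (f x).comap e.symm ≤ (f x).comap e.symm ⊔ (f y).comap e.symm)
          rwa [c1] at this
        · have := mono' _ _ (le_sup_right :
            (f y).comap e.symm ≤ (f x).comap e.symm ⊔ (f y).comap e.symm)
          rwa [c1] at this
      have := mono _ _ h3
      rwa [c2] at this
    · exact sup_le (mono _ _ le_sup_left) (mono _ _ le_sup_right)

/-- **The Whitman number of the dual of the partition lattice of four points is at most 660**,
in particular at most `2 ^ 1000`: the lattice is representable by partitions of some set with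
`n ≤ 660` elements. -/
theorem result :
    (∃ n : ℕ, n ≤ 660 ∧ Representable DualPi4 (Fin n)) ∧
      whitmanNumber DualPi4 ≤ 660 ∧ whitmanNumber DualPi4 ≤ 2 ^ 1000 := by
  have h : ∃ n : ℕ, n ≤ 660 ∧ Representable DualPi4 (Fin n) :=
    ⟨Nat.card G, card_G, representable_G.congr (Finite.equivFin G)⟩
  refine ⟨h, ?_, ?_⟩
  · obtain ⟨n, hn, hr⟩ := h
    exact (Nat.sInf_le hr).trans hn
  · obtain ⟨n, hn, hr⟩ := h
    have hp : ∀ k : ℕ, 10 ≤ k → 660 ≤ 2 ^ k := fun k hk =>
      (by norm_num : 660 ≤ 2 ^ 10).trans (Nat.pow_le_pow_right (by decide) hk)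
    exact (Nat.sInf_le hr).trans (hn.trans (hp 1000 (by decide)))

end Pool.Agent.Results.MP_437e5a_co.DualPartitionLattice
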